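import Pool.Agent.H49.SW.Stm

set_option autoImplicit false

/-!
# ShortWords R3: generic points exist
-/

namespace Pool.Agent.H76.SW

open Finset MvPolynomial
open Pool.Agent.H49.SW

/-- A nonzero integer polynomial does not vanish at some point with coordinates at least one. -/
theorem exists_point {α : Type} (P : MvPolynomial α ℤ) (hP : P ≠ 0) :
    ∃ t : α → ℕ, (∀ x, 1 ≤ t x) ∧ evt t P ≠ 0 := by
  by_contra hcon
  push Not at hcon
  apply hP
  refine MvPolynomial.funext_set (fun _ : α => {n : ℤ | 1 ≤ n}) (fun _ => Set.Ici_infinite 1) ?_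
  intro x hx
  have hx1 : ∀ i, 1 ≤ x i := fun i => hx i (Set.mem_univ i)
  have h := hcon (fun i => (x i).toNat) (fun i => by have := hx1 i; omega)
  have hxe : (fun i => (((x i).toNat : ℕ) : ℤ)) = x := by
    funext i
    exact Int.toNat_of_nonneg (by have := hx1 i; omega)
  have h' : eval (fun i => (((x i).toNat : ℕ) : ℤ)) P = 0 := h
  rw [hxe] at h'
  rw [h', map_zero]

/-- R3. -/
theorem sgen : SGen := by
  intro α _ _ K hK
  classical
  set Q : MvPolynomial α ℤ → ℕ → MvPolynomial α ℤ := fun p d =>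
    if homogeneousComponent d p = 0 then 1 else homogeneousComponent d p with hQ
  have hQ0 : ∀ p d, Q p d ≠ 0 := by
    intro p d
    simp only [hQ]
    split_ifs with h
    · exact one_ne_zero
    · exact h
  obtain ⟨t, ht1, ht⟩ := exists_point
    (∏ p ∈ hK.toFinset, ∏ d ∈ range (p.totalDegree + 1), Q p d)
    (Finset.prod_ne_zero_iff.mpr fun p _ => Finset.prod_ne_zero_iff.mpr fun d _ => hQ0 p d)
  refine ⟨t, ht1, fun p hp d hd => ?_⟩
  have hdle : d < p.totalDegree + 1 := by
    by_contra hlt
    exact hd (homogeneousComponent_eq_zero d p (by omega))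
  have h1 : evt t (∏ p ∈ hK.toFinset, ∏ d ∈ range (p.totalDegree + 1), Q p d)
      = ∏ p ∈ hK.toFinset, ∏ d ∈ range (p.totalDegree + 1), evt t (Q p d) := by
    simp only [evt, map_prod]
  rw [h1, Finset.prod_ne_zero_iff] at ht
  have h2 := ht p (hK.mem_toFinset.mpr hp)
  rw [Finset.prod_ne_zero_iff] at h2
  have h3 := h2 d (Finset.mem_range.mpr hdle)
  simp only [hQ, if_neg hd] at h3
  exact h3

end Pool.Agent.H76.SW
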